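import Pool.Agent.Q321.GE.Red

/-!
# The isomorphism problem for geodetic graphs is GI-complete

The graph isomorphism problem for arbitrary finite graphs reduces, by a polynomial-time many-one
reduction (a Turing machine in the sense of Mathlib, working on bit strings), to the isomorphism
problem for geodetic graphs, even for 2-connected geodetic graphs of diameter at most five. Hence
the isomorphism of geodetic graphs can be decided in polynomial time if and only if the isomorphism
of arbitrary graphs can.

The graph `X` is turned into a linear space: besides the vertices there are one further point, four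
further points for every vertex and two for every edge; the lines with at least three points are
two lines `{u, ·, ·}` for every vertex `u` and the lines `{u, v, (u, v), (v, u)}` for the edges
`uv`. The graph of the points and the flags of a linear space, in which a point is adjacent to its
flags and two flags are adjacent if they have the same line, is geodetic of diameter at most five.
-/

set_option autoImplicit false

namespace Pool.Agent.Results.MP_f934c9_lc.GeodeticGIComplete

open Pool.Agent.NPC Pool.Agent.NPC.R671 Pool.Agent.Q321.GE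
open Pool.Agent.Y815.GI (GraphIso)

theorem redBits_spec : ∃ g : List Bool → List (List Bool) × List (List Bool), Poly g ∧
    ∀ x : List Bool, ∃ (N M : ℕ) (X' : SimpleGraph (Fin N)) (Y' : SimpleGraph (Fin M)),
      g x = (adjMatrix X', adjMatrix Y') ∧ Good X' ∧ Good Y' ∧
        (x ∈ lang GraphIso ↔ Nonempty (X' ≃g Y')) := by
  refine ⟨fun x => (unbits (List (List Bool) × List (List Bool)) x).elim (compl 3, compl 4) red,
    NPC.Poly.optElim poly_unbits (NPC.Poly.const _) (poly_red.comp (NPC.Poly.snd NPC.Poly.id)),
    fun x => ?_⟩
  rw [mem_lang_iff]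
  cases h : unbits (List (List Bool) × List (List Bool)) x with
  | none =>
    refine ⟨3, 4, ⊤, ⊤, ?_, good_top 0, good_top 1, ?_⟩
    · simp only [h, Option.elim_none]
      rw [compl_eq, compl_eq]
    · refine ⟨?_, fun h => absurd h not_iso_34⟩
      rintro ⟨a, ha, _⟩
      exact absurd ha (by simp)
  | some p =>
    obtain ⟨N, M, X', Y', h1, h2, h3, h4⟩ := red_spec p
    refine ⟨N, M, X', Y', ?_, h2, h3, ?_⟩
    · simp only [h, Option.elim_some]
      exact h1
    rw [← h4]
    constructor
    · rintro ⟨a, ha, h5⟩
      rw [Option.some.inj ha]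
      exact h5
    · intro h5
      exact ⟨p, rfl, h5⟩

/-- **The isomorphism problem for geodetic graphs is GI-complete.**

* There is a polynomial-time computable function `f` on bit strings such that, for *every* bit
  string `x`, the value `f x` codes a pair of adjacency matrices of finite graphs `X'`, `Y'` which
  are both geodetic, 2-connected and of diameter at most five, and `x` is a yes-instance of the
  graph isomorphism problem for arbitrary graphs iff `X'` and `Y'` are isomorphic.
* There is a polynomial-time algorithm which decides correctly, for all pairs of geodetic graphs,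
  whether they are isomorphic, if and only if the graph isomorphism problem is in `P`. -/
theorem result :
    (∃ f : List Bool → List Bool, PolyTime f ∧ ∀ x : List Bool,
      ∃ (N M : ℕ) (X' : SimpleGraph (Fin N)) (Y' : SimpleGraph (Fin M)),
        f x = bits (adjMatrix X', adjMatrix Y') ∧ Geodetic X' ∧ Geodetic Y' ∧
          TwoConnected X' ∧ TwoConnected Y' ∧ (∀ u v, X'.dist u v ≤ 5) ∧
          (∀ u v, Y'.dist u v ≤ 5) ∧ (x ∈ lang GraphIso ↔ Nonempty (X' ≃g Y'))) ∧
    ((∃ T : Set (List Bool), InP T ∧
        ∀ (N M : ℕ) (X : SimpleGraph (Fin N)) (Y : SimpleGraph (Fin M)), Geodetic X → Geodetic Y →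
          (bits (adjMatrix X, adjMatrix Y) ∈ T ↔ Nonempty (X ≃g Y))) ↔
      InP (lang GraphIso)) := by
  obtain ⟨g, hg, hspec⟩ := redBits_spec
  have hmain : ∃ f : List Bool → List Bool, PolyTime f ∧ ∀ x : List Bool,
      ∃ (N M : ℕ) (X' : SimpleGraph (Fin N)) (Y' : SimpleGraph (Fin M)),
        f x = bits (adjMatrix X', adjMatrix Y') ∧ Geodetic X' ∧ Geodetic Y' ∧
          TwoConnected X' ∧ TwoConnected Y' ∧ (∀ u v, X'.dist u v ≤ 5) ∧
          (∀ u v, Y'.dist u v ≤ 5) ∧ (x ∈ lang GraphIso ↔ Nonempty (X' ≃g Y')) := by
    refine ⟨fun x => bits (g x), polyTime_bits hg, fun x => ?_⟩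
    obtain ⟨N, M, X', Y', h1, h2, h3, h4⟩ := hspec x
    exact ⟨N, M, X', Y', congrArg bits h1, h2.1, h3.1, h2.2.1, h3.2.1, h2.2.2, h3.2.2, h4⟩
  refine ⟨hmain, ?_, fun h => ⟨lang GraphIso, h, fun N M X Y _ _ => ?_⟩⟩
  · rintro ⟨T, hT, h⟩
    obtain ⟨f, hf, h1⟩ := hmain
    refine InP.of_reduces ⟨f, hf, fun x => ?_⟩ hT
    obtain ⟨N, M, X', Y', h2, h3, h4, _, _, _, _, h5⟩ := h1 x
    rw [h5, h2, h N M X' Y' h3 h4]
  · rw [bits_mem_lang]
    exact graphIso_adj X Y

end Pool.Agent.Results.MP_f934c9_lc.GeodeticGIComplete
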